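import Pool.Agent.H99.OG.LogScale
import Pool.Agent.H99.OG.Fail

/-!
# The order of the gaps between primes

The asymptotic formula `π(x + H) - π(x) ~ H / log x` in short intervals is a statement about the lengths
of the gaps between primes and about their order. Here the two are separated. Take the `N` gaps between
the primes `p_N, …, p_(2N)` and put them together again in another order `σ`; the identity order gives
the primes back, and the asymptotic formula for the primes is the regularity of the identity order.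

The theorem: for every exponent `c` the formula holds for all lengths `≥ x^(c+ε)` in SOME order if and
only if it holds in all but a proportion `exp (-N^η)` of the `N!` orders, and if and only if all gaps
are `≤ x^(c+ε)`; similarly with `almost all x` in place of `all x`. So once the intervals of length
`x^(c+ε)` are known to contain primes at all, nothing but the order of the gaps can spoil the
asymptotic formula. It can do so: the increasing order is irregular at the scale `κ x`, and, by Maier's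
theorem, the order in which the primes come is irregular at the scale of every power of the
logarithm, whereas nearly all orders are regular there if the gaps are at most a power of the logarithm.

Proof. A sum of `k` terms of a randomly permuted sequence of nonnegative numbers has exponential moments
bounded by those of independent choices (Maclaurin's inequality in the form `FF_le`), so it is
concentrated; the gaps that are too long are treated with a one-sided maximal inequality; prime number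
theorem for `p_N`. For the increasing order one needs that a positive proportion of the gaps is not
close to the average (upper bound sieve for prime pairs, second moment of the singular series).
-/

set_option autoImplicit false

namespace Pool.Agent.Results.MP_31d0eb_nt.OrderOfTheGaps

open Filter Pool.Agent.H99.OG

open Classical in
theorem result :
    (∀ c : ℝ, 0 ≤ c →
      -- (1) the asymptotic formula for the primes is the regularity of the identity order
      ((∀ ε : ℝ, 0 < ε → ∀ δ : ℝ, 0 < δ → ∃ X : ℝ, ∀ x : ℝ, X ≤ x →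
          ∀ H : ℝ, x ^ (c + ε) < H → H ≤ x →
            |(((Finset.Ioc ⌊x⌋₊ ⌊x + H⌋₊).filter Nat.Prime).card : ℝ) - H / Real.log x|
              ≤ δ * (H / Real.log x)) ↔
        (∀ ε : ℝ, 0 < ε → ∀ δ : ℝ, 0 < δ → ∀ᶠ N : ℕ in atTop,
          ∀ x : ℕ, pr N ≤ x → Reg N 1 ((pr N : ℝ) ^ (c + ε)) δ x)) ∧
      -- (2) all gaps are short iff some order is regular iff most orders are regular
      (((∀ ε : ℝ, 0 < ε → ∀ᶠ n : ℕ in atTop, (gap n : ℝ) ≤ (pr n : ℝ) ^ (c + ε)) ↔
          (∀ ε : ℝ, 0 < ε → ∀ δ : ℝ, 0 < δ → ∀ᶠ N : ℕ in atTop, ∃ σ : Equiv.Perm (Fin N),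
            ∀ x : ℕ, pr N ≤ x → Reg N σ ((pr N : ℝ) ^ (c + ε)) δ x)) ∧
        ((∀ ε : ℝ, 0 < ε → ∀ᶠ n : ℕ in atTop, (gap n : ℝ) ≤ (pr n : ℝ) ^ (c + ε)) ↔
          (∀ ε : ℝ, 0 < ε → ∀ δ : ℝ, 0 < δ → ∃ η : ℝ, 0 < η ∧ ∀ᶠ N : ℕ in atTop,
            (({σ : Equiv.Perm (Fin N) | ¬ ∀ x : ℕ, pr N ≤ x →
              Reg N σ ((pr N : ℝ) ^ (c + ε)) δ x}.ncard : ℕ) : ℝ) ≤
                Real.exp (-(N : ℝ) ^ η) * N.factorial))) ∧
      -- (3) long gaps have small total length iff some order is regular at almost all `x` iff most are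
      (((∀ ε : ℝ, 0 < ε → ∀ δ : ℝ, 0 < δ → ∀ᶠ N : ℕ in atTop,
            ∑ n ∈ (Finset.Ico N (2 * N)).filter (fun n => (pr N : ℝ) ^ (c + ε) < gap n), (gap n : ℝ)
              ≤ δ * pr N) ↔
          (∀ ε : ℝ, 0 < ε → ∀ δ : ℝ, 0 < δ → ∀ᶠ N : ℕ in atTop, ∃ σ : Equiv.Perm (Fin N),
            (((Finset.Ico (pr N) (pr (2 * N))).filter
              (fun x => ¬ Reg N σ ((pr N : ℝ) ^ (c + ε)) δ x)).card : ℝ) ≤ δ * pr N)) ∧
        ((∀ ε : ℝ, 0 < ε → ∀ δ : ℝ, 0 < δ → ∀ᶠ N : ℕ in atTop,
            ∑ n ∈ (Finset.Ico N (2 * N)).filter (fun n => (pr N : ℝ) ^ (c + ε) < gap n), (gap n : ℝ)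
              ≤ δ * pr N) ↔
          (∀ ε : ℝ, 0 < ε → ∀ δ : ℝ, 0 < δ → ∃ η : ℝ, 0 < η ∧ ∀ᶠ N : ℕ in atTop,
            (({σ : Equiv.Perm (Fin N) | ¬ ((((Finset.Ico (pr N) (pr (2 * N))).filter
              (fun x => ¬ Reg N σ ((pr N : ℝ) ^ (c + ε)) δ x)).card : ℝ) ≤ δ * pr N)}.ncard : ℕ) : ℝ)
                ≤ Real.exp (-(N : ℝ) ^ η) * N.factorial)))) ∧
    -- (4) the increasing order is irregular, unconditionally
    (∃ κ : ℝ, 0 < κ ∧ ∃ θ : ℝ, 0 < θ ∧ ∀ᶠ N : ℕ in atTop, ∀ σ : Equiv.Perm (Fin N),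
      Monotone (fun i : Fin N => gap (N + (σ i : ℕ))) → ¬ Reg N σ (κ * pr N) θ (pr N)) ∧
    -- (5) the scale of the powers of the logarithm
    (∀ A B D : ℝ, 1 ≤ B → B + 1 < A → ∃ δ : ℝ, 0 < δ ∧
      (∃ᶠ N : ℕ in atTop, ¬ ∀ x : ℕ, pr N ≤ x → Reg N 1 (Real.log (pr N) ^ A) δ x) ∧
      (∀ᶠ N : ℕ in atTop,
        (∀ n ∈ Finset.Ico N (2 * N), (gap n : ℝ) ≤ Real.log (pr N) ^ B) →
          (({σ : Equiv.Perm (Fin N) | ¬ ∀ x : ℕ, pr N ≤ x →
            Reg N σ (Real.log (pr N) ^ A) δ x}.ncard : ℕ) : ℝ) ≤ (N : ℝ) ^ (-D) * N.factorial)) := by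
  refine ⟨fun c hc => ⟨asymp_iff hc, all_iff hc, almost_iff hc⟩, increasing_fails, ?_⟩
  intro A B D hB hA
  obtain ⟨δ, hδ, hfreq⟩ := maier_id A (by linarith)
  exact ⟨δ, hδ, hfreq, log_scale_typical A B D δ hB hA hδ⟩

end Pool.Agent.Results.MP_31d0eb_nt.OrderOfTheGaps
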