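import Mathlib
import Pool.Agent.H68.GR.Fin

set_option autoImplicit false

/-!
# Primes in short intervals attached to the edges of a graph

Fix `r`, `A` and `ε > 0`.  There are `K` and `N₀` such that for all `N ≥ N₀` the following holds for every graph `G` on `r`
vertices.  Attach to every edge `uv` (`u < v`) a linear form `y_uv(x) = a x_u + b x_v + c` with `1 ≤ a, b ≤ A`,
`0 ≤ c ≤ A N`, and a window length `H_uv` with `K ≤ H_uv ≤ N` (bounded windows are allowed).  Let `w` be a complex weight on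
the tuples `x ∈ [1, N] ^ r` which at every edge `uv` is a product `F F'` of two functions bounded by one, `F` not depending on
`x_u`, `F'` not depending on `x_v` (for example the indicator function of `A_1 × ... × A_r` for arbitrary sets `A_i`).  Then

`| ∑_x w(x) ( ∏_{uv edge} π(y_uv(x), H_uv) log N / H_uv - 1 ) | ≤ ε N ^ r`.

Consequence (with `G` complete and all windows of the same bounded length): for every `r` and `δ > 0` there is `K` such that
every set of at least `δ N` elements of `[1, N]` contains, once `N` is large, `r` distinct elements `x_1, ..., x_r` such that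
every interval `(x_i + x_j, x_i + x_j + K]`, `i < j`, contains a prime.
-/

namespace Pool.Agent.Results.MP_31d0eb_nt.PairwiseSumsAllGraphs

open Finset Pool.Agent.H68.GR

/-- `π(y, H)`: the number of primes `p` with `y < p ≤ y + H` -/
def primesIn (y H : ℕ) : ℕ := ((Ioc y (y + H)).filter Nat.Prime).card

/-- the tuples `x` with `1 ≤ x_i ≤ N` for all `i` -/
def tuples (r N : ℕ) : Finset (Fin r → ℕ) := Fintype.piFinset fun _ => Icc 1 N

/-- `F` does not depend on the coordinate `x_i` -/
def NotDependingOn {r : ℕ} (F : (Fin r → ℕ) → ℂ) (i : Fin r) : Prop :=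
  ∀ (x : Fin r → ℕ) (t : ℕ), F (Function.update x i t) = F x

/-- `w = F F'` with `|F|, |F'| ≤ 1`, `F` not depending on `x_u` and `F'` not depending on `x_v` -/
def SplitsAt {r : ℕ} (w : (Fin r → ℕ) → ℂ) (u v : Fin r) : Prop :=
  ∃ F F' : (Fin r → ℕ) → ℂ, (∀ x, ‖F x‖ ≤ 1) ∧ (∀ x, ‖F' x‖ ≤ 1) ∧ NotDependingOn F u ∧ NotDependingOn F' v ∧
    ∀ x, w x = F x * F' x

/-- the edges of `G`, each written as a pair `(u, v)` with `u < v` -/
noncomputable def edges {r : ℕ} (G : SimpleGraph (Fin r)) : Finset (Fin r × Fin r) := by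
  classical exact univ.filter fun e => e.1 < e.2 ∧ G.Adj e.1 e.2

lemma mem_edges {r : ℕ} {G : SimpleGraph (Fin r)} {e : Fin r × Fin r} : e ∈ edges G ↔ e.1 < e.2 ∧ G.Adj e.1 e.2 := by
  unfold edges
  simp

lemma wa_onP (H n : ℕ) (t : ℝ) : wa (fun n => t * onP n) H n = primesIn n H * t / H := by
  unfold wa primesIn
  have h1 : ∑ h ∈ Icc 1 H, t * onP (n + h) = t * ((Ioc n (n + H)).filter Nat.Prime).card := by
    rw [← mul_sum]
    congr 1
    rw [card_filter]
    push_cast
    apply sum_nbij' (fun h => n + h) (fun m => m - n)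
    · intro h hh
      rw [mem_Icc] at hh
      rw [mem_Ioc]
      omega
    · intro m hm
      rw [mem_Ioc] at hm
      rw [mem_Icc]
      omega
    · intro h _
      simp
    · intro m hm
      rw [mem_Ioc] at hm
      omega
    · intro h _
      rfl
  rw [h1]
  ring

theorem weighted (r A : ℕ) (ε : ℝ) (hε : 0 < ε) : ∃ K N₀ : ℕ, ∀ N : ℕ, N₀ ≤ N →
    ∀ (G : SimpleGraph (Fin r)) (a b c H : Fin r × Fin r → ℕ) (w : (Fin r → ℕ) → ℂ), (∀ x, ‖w x‖ ≤ 1) →
      (∀ e ∈ edges G, 1 ≤ a e ∧ a e ≤ A ∧ 1 ≤ b e ∧ b e ≤ A ∧ c e ≤ A * N ∧ K ≤ H e ∧ H e ≤ N ∧ SplitsAt w e.1 e.2) →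
      ‖∑ x ∈ tuples r N, w x * ((∏ e ∈ edges G,
          (primesIn (a e * x e.1 + b e * x e.2 + c e) (H e) * Real.log N / H e : ℝ) - 1 : ℝ) : ℂ)‖ ≤ ε * (N : ℝ) ^ r := by
  obtain ⟨K, hK1, N1, hN1⟩ := main_prime (V := Fin r) (ι := Fin r × Fin r) (r * r) (3 * A) ε hε
  refine ⟨K, max N1 K, fun N hN G a b c H w hw hG => ?_⟩
  have hNN : N1 ≤ N := (le_max_left _ _).trans hN
  have hNK : K ≤ N := (le_max_right _ _).trans hN
  classical
  let D : Edges (Fin r) (Fin r × Fin r) :=
    { u := fun e => e.1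
      v := fun e => e.2
      a := a
      b := b
      E := edges G
      ne := fun e he => (mem_edges.1 he).1.ne
      ha := fun e he => (hG e he).1
      hb := fun e he => (hG e he).2.2.1
      simple := by
        intro e he e' he' hne h
        have h1 := (mem_edges.1 he).1
        have h2 := (mem_edges.1 he').1
        apply hne
        rcases h with ⟨h3 | h3, h4 | h4⟩
        · rw [h3, h4] at h2; exact absurd h2 (lt_irrefl _)
        · exact Prod.ext h3.symm h4.symm
        · rw [h3, h4] at h2; exact absurd h2 (not_lt.2 h1.le)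
        · rw [h3, h4] at h2; exact absurd h2 (lt_irrefl _) }
  set H' : Fin r × Fin r → ℕ := fun e => if e ∈ edges G then H e else K with hH'
  have h1 := hN1 N hNN H' (fun e => by
      simp only [hH']
      split_ifs with h
      · exact (hG e h).2.2.2.2.2.1
      · exact le_rfl) (fun e => by
      simp only [hH']
      split_ifs with h
      · exact (hG e h).2.2.2.2.2.2.1
      · exact hNK) D c w hw ⟨fun e he x hx y hy => by
        obtain ⟨h1, h2, h3, h4, h5, -⟩ := hG e he
        rw [mem_Icc] at hx hy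
        have h6 : a e * x ≤ A * N := Nat.mul_le_mul h2 hx.2
        have h7 : b e * y ≤ A * N := Nat.mul_le_mul h4 hy.2
        show a e * x + b e * y + c e ≤ 3 * A * N
        have h8 : 3 * A * N = A * N + A * N + A * N := by ring
        omega, fun e he => by
        obtain ⟨F, F', hF, hF', hFu, hFv, hFF⟩ := (hG e he).2.2.2.2.2.2.2
        exact ⟨F, F', hF, hF', hFu, hFv, fun x => by rw [hFF]; push_cast; ring⟩⟩ (by
        show (edges G).card ≤ r * r
        calc (edges G).card ≤ (univ : Finset (Fin r × Fin r)).card := card_le_card (subset_univ _)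
          _ = r * r := by rw [card_univ, Fintype.card_prod, Fintype.card_fin])
  rw [card_Box, Fintype.card_fin] at h1
  have e1 : ∑ x ∈ tuples r N, w x * ((∏ e ∈ edges G,
          (primesIn (a e * x e.1 + b e * x e.2 + c e) (H e) * Real.log N / H e : ℝ) - 1 : ℝ) : ℂ) =
      ∑ x ∈ Box (Fin r) N, w x * ((PR D c (fun n => Real.log N * onP n) H' x : ℝ) : ℂ) - ∑ x ∈ Box (Fin r) N, w x := by
    rw [← sum_sub_distrib]
    apply sum_congr rfl
    intro x _
    have e2 : PR D c (fun n => Real.log N * onP n) H' x = ∏ e ∈ edges G,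
          (primesIn (a e * x e.1 + b e * x e.2 + c e) (H e) * Real.log N / H e : ℝ) := by
      unfold PR
      apply prod_congr rfl
      intro e he
      rw [wa_onP]
      have e3 : H' e = H e := by simp only [hH']; rw [if_pos he]
      rw [e3]
      rfl
    rw [e2]
    push_cast
    ring
  rw [e1]
  refine h1.trans (le_of_eq ?_)
  push_cast
  ring

lemma split_prod_ind {r : ℕ} (B : Fin r → Finset ℕ) (u v : Fin r) (huv : u ≠ v) :
    SplitsAt (fun x => ∏ i, if x i ∈ B i then (1 : ℂ) else 0) u v := by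
  refine ⟨fun x => ∏ i ∈ univ.erase u, if x i ∈ B i then (1 : ℂ) else 0, fun x => if x u ∈ B u then 1 else 0, fun x => ?_,
    fun x => ?_, fun x t => ?_, fun x t => ?_, fun x => ?_⟩
  · rw [norm_prod]
    apply prod_le_one (fun _ _ => norm_nonneg _)
    intro i _
    split_ifs <;> simp
  · simp only
    split_ifs <;> simp
  · apply prod_congr rfl
    intro i hi
    rw [Function.update_of_ne (ne_of_mem_erase hi)]
  · simp only
    rw [Function.update_of_ne huv]
  · simp only
    rw [← mul_prod_erase univ _ (mem_univ u), mul_comm]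

/-- pieces of equal size of a finite set of integers -/
lemma exists_pieces (r m : ℕ) (A : Finset ℕ) (h : r * m ≤ A.card) : ∃ B : Fin r → Finset ℕ,
    (∀ i, B i ⊆ A) ∧ (∀ i, (B i).card = m) ∧ ∀ i j, i ≠ j → Disjoint (B i) (B j) := by
  have hlt : ∀ (i : Fin r) (t : Fin m), i.val * m + t.val < A.card := by
    intro i t
    have h1 : (i.val + 1) * m ≤ r * m := Nat.mul_le_mul_right m i.2
    have h2 := t.2
    rw [add_mul, one_mul] at h1
    omega
  set e := A.orderEmbOfFin rfl with he
  set f : Fin r → Fin m → ℕ := fun i t => e ⟨i.val * m + t.val, hlt i t⟩ with hf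
  have hinj : ∀ i j t s, f i t = f j s → i = j ∧ t = s := by
    intro i j t s h
    have h1 := e.injective h
    rw [Fin.mk.injEq] at h1
    have hm : 0 < m := lt_of_le_of_lt (Nat.zero_le _) t.2
    have h2 : (i.val * m + t.val) / m = i.val := by
      rw [add_comm, Nat.add_mul_div_right _ _ hm, Nat.div_eq_of_lt t.2, zero_add]
    have h3 : (j.val * m + s.val) / m = j.val := by
      rw [add_comm, Nat.add_mul_div_right _ _ hm, Nat.div_eq_of_lt s.2, zero_add]
    have h4 : i.val = j.val := by rw [← h2, ← h3, h1]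
    refine ⟨Fin.ext h4, Fin.ext ?_⟩
    rw [h4] at h1
    omega
  refine ⟨fun i => univ.image (f i), fun i y hy => ?_, fun i => ?_, fun i j hij => ?_⟩
  · rw [mem_image] at hy
    obtain ⟨t, -, rfl⟩ := hy
    exact A.orderEmbOfFin_mem rfl _
  · rw [card_image_of_injective _ (fun t s h => (hinj i i t s h).2), card_univ, Fintype.card_fin]
  · rw [disjoint_left]
    intro y h1 h2
    rw [mem_image] at h1 h2
    obtain ⟨t, -, rfl⟩ := h1
    obtain ⟨s, -, h2⟩ := h2
    exact hij (hinj j i s t h2).1.symm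

theorem dense (r : ℕ) (δ : ℝ) (hδ : 0 < δ) : ∃ K N₀ : ℕ, ∀ N : ℕ, N₀ ≤ N → ∀ A : Finset ℕ, A ⊆ Icc 1 N →
    δ * N ≤ A.card → ∃ x : Fin r → ℕ, Function.Injective x ∧ (∀ i, x i ∈ A) ∧
      ∀ i j, i < j → ∃ p : ℕ, p.Prime ∧ x i + x j < p ∧ p ≤ x i + x j + K := by
  rcases Nat.eq_zero_or_pos r with hr | hr
  · subst hr
    exact ⟨0, 0, fun N _ A _ _ => ⟨fun i => i.elim0, fun i => i.elim0, fun i => i.elim0, fun i => i.elim0⟩⟩
  have hr0 : (0 : ℝ) < r := by exact_mod_cast hr
  set ε : ℝ := (δ / (2 * r)) ^ r / 2 with hε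
  have hε0 : 0 < ε := by positivity
  obtain ⟨K, N1, h1⟩ := weighted r 1 ε hε0
  obtain ⟨N2, hN2⟩ := exists_nat_ge (2 * r / δ)
  refine ⟨K, max (max N1 N2) (max K 1), fun N hN A hA hcard => ?_⟩
  have hn1 : N1 ≤ N := (le_trans (le_max_left _ _) (le_max_left _ _)).trans hN
  have hn2 : N2 ≤ N := (le_trans (le_max_right _ _) (le_max_left _ _)).trans hN
  have hn3 : K ≤ N := (le_trans (le_max_left _ _) (le_max_right _ _)).trans hN
  have hn4 : 1 ≤ N := (le_trans (le_max_right _ _) (le_max_right _ _)).trans hN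
  have hN0 : (0 : ℝ) < N := by exact_mod_cast hn4
  set m := A.card / r with hm
  obtain ⟨B, hBA, hBc, hBd⟩ := exists_pieces r m A (Nat.mul_div_le _ _)
  have hmN : δ / (2 * r) * N ≤ m := by
    have h2 : (A.card : ℝ) < r * (m + 1) := by
      have := Nat.lt_mul_div_succ A.card hr
      rw [← hm] at this
      exact_mod_cast this
    have h3 : 2 * r / δ ≤ N := hN2.trans (by exact_mod_cast hn2)
    rw [div_le_iff₀ hδ] at h3
    have h4 : δ * N < r * (m + 1) := lt_of_le_of_lt hcard h2
    have h5 : δ / (2 * r) * N = (δ * N / 2) / r := by field_simp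
    rw [h5, div_le_iff₀ hr0]
    nlinarith
  by_contra hcon
  push Not at hcon
  set w : (Fin r → ℕ) → ℂ := fun x => ∏ i, if x i ∈ B i then (1 : ℂ) else 0 with hw
  have hw1 : ∀ x, ‖w x‖ ≤ 1 := by
    intro x
    rw [hw, norm_prod]
    apply prod_le_one (fun _ _ => norm_nonneg _)
    intro i _
    split_ifs <;> simp
  have h2 := h1 N hn1 ⊤ (fun _ => 1) (fun _ => 1) (fun _ => 0) (fun _ => K) w hw1 (fun e he =>
    ⟨le_rfl, le_rfl, le_rfl, le_rfl, Nat.zero_le _, le_rfl, hn3, split_prod_ind B e.1 e.2 (mem_edges.1 he).1.ne⟩)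
  have h3 : ∀ x ∈ tuples r N, w x * ((∏ e ∈ edges (⊤ : SimpleGraph (Fin r)),
          (primesIn (1 * x e.1 + 1 * x e.2 + 0) K * Real.log N / K : ℝ) - 1 : ℝ) : ℂ) = - w x := by
    intro x _
    by_cases hx : ∀ i, x i ∈ B i
    · have hinj : Function.Injective x := by
        intro i j hij
        by_contra hne
        have h4 := hBd i j hne
        rw [disjoint_left] at h4
        exact h4 (hx i) (hij ▸ hx j)
      obtain ⟨i, j, hij, h4⟩ := hcon x hinj (fun i => hBA i (hx i))
      have h5 : primesIn (1 * x i + 1 * x j + 0) K = 0 := by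
        unfold primesIn
        rw [card_eq_zero, filter_eq_empty_iff]
        intro p hp hpp
        rw [mem_Ioc] at hp
        have h6 := h4 p hpp (by omega)
        omega
      have h6 : ∏ e ∈ edges (⊤ : SimpleGraph (Fin r)),
          (primesIn (1 * x e.1 + 1 * x e.2 + 0) K * Real.log N / K : ℝ) = 0 := by
        apply prod_eq_zero (i := (i, j)) (mem_edges.2 ⟨hij, hij.ne⟩)
        simp only
        rw [h5]
        simp
      rw [h6]
      push_cast
      ring
    · push Not at hx
      obtain ⟨i, hi⟩ := hx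
      have h4 : w x = 0 := by
        simp only [hw]
        apply prod_eq_zero (mem_univ i)
        rw [if_neg hi]
      rw [h4]
      simp
  rw [sum_congr rfl h3, sum_neg_distrib, norm_neg] at h2
  have h4 : ∑ x ∈ tuples r N, w x = (m : ℂ) ^ r := by
    simp only [hw]
    unfold tuples
    rw [← prod_univ_sum (fun _ => Icc 1 N) (fun i t => if t ∈ B i then (1 : ℂ) else 0)]
    have h5 : ∀ i : Fin r, ∑ t ∈ Icc 1 N, (if t ∈ B i then (1 : ℂ) else 0) = m := by
      intro i
      rw [← sum_filter, sum_const, nsmul_eq_mul, mul_one]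
      congr 1
      have : (Icc 1 N).filter (fun t => t ∈ B i) = B i := by
        ext t
        rw [mem_filter]
        exact ⟨fun h => h.2, fun h => ⟨hA (hBA i h), h⟩⟩
      rw [this, hBc]
    rw [prod_congr rfl (fun i _ => h5 i), prod_const, card_univ, Fintype.card_fin]
  rw [h4, norm_pow, Complex.norm_natCast] at h2
  have h5 : (δ / (2 * r) * N) ^ r ≤ (m : ℝ) ^ r := pow_le_pow_left₀ (by positivity) hmN r
  rw [mul_pow] at h5
  have h6 : 0 < (δ / (2 * r)) ^ r * (N : ℝ) ^ r := by positivity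
  rw [hε] at h2
  linarith

/-- **Primes in short intervals attached to the edges of a graph**, and the consequence for dense sets. -/
theorem result :
    (∀ (r A : ℕ) (ε : ℝ), 0 < ε → ∃ K N₀ : ℕ, ∀ N : ℕ, N₀ ≤ N →
      ∀ (G : SimpleGraph (Fin r)) (a b c H : Fin r × Fin r → ℕ) (w : (Fin r → ℕ) → ℂ), (∀ x, ‖w x‖ ≤ 1) →
        (∀ e ∈ edges G, 1 ≤ a e ∧ a e ≤ A ∧ 1 ≤ b e ∧ b e ≤ A ∧ c e ≤ A * N ∧ K ≤ H e ∧ H e ≤ N ∧ SplitsAt w e.1 e.2) →
        ‖∑ x ∈ tuples r N, w x * ((∏ e ∈ edges G,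
            (primesIn (a e * x e.1 + b e * x e.2 + c e) (H e) * Real.log N / H e : ℝ) - 1 : ℝ) : ℂ)‖ ≤ ε * (N : ℝ) ^ r) ∧
    (∀ (r : ℕ) (δ : ℝ), 0 < δ → ∃ K N₀ : ℕ, ∀ N : ℕ, N₀ ≤ N → ∀ A : Finset ℕ, A ⊆ Icc 1 N → δ * N ≤ A.card →
      ∃ x : Fin r → ℕ, Function.Injective x ∧ (∀ i, x i ∈ A) ∧
        ∀ i j, i < j → ∃ p : ℕ, p.Prime ∧ x i + x j < p ∧ p ≤ x i + x j + K) :=
  ⟨weighted, dense⟩

end Pool.Agent.Results.MP_31d0eb_nt.PairwiseSumsAllGraphs
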