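import Pool.Agent.H34.BK.SysP

/-!
# The prime number theorem in short intervals is independent of RH, Lindelöf, the zeros and the laws of all constellations

Q1 asks for `π(x, H) ∼ H / log x` for all `x ^ ε ≤ H ≤ x`. The Riemann hypothesis gives this for `H` above `√x log x`. How much
below could be deduced from the Riemann hypothesis together with the Lindelöf hypothesis, the knowledge of all zeros of the zeta
function, the prime tuple conjecture of Hardy and Littlewood with square root errors and the Poisson law for the number of the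
primes in the intervals `(x, x + lam log x]`? Here this is answered for generalised
primes (Beurling primes): a sequence `1 < q 0 < q 1 < ...` of real numbers, with the generalised integers
`gint q n = ∏ q (k - 1)` over the prime factors of `n` with multiplicity, the factor being the `k`-th prime.

Prescribe

* the zeros of the zeta function in `Re s > 1 / 3`: they are `1 / 2 ± i γ k`, with multiplicity, for any sequence
  `0 < γ 0 ≤ γ 1 ≤ ...` with `O((T + 1) ^ ε)` terms in every window `[T, T + 1]` (if the Riemann hypothesis holds, for instance the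
  ordinates of the zeros of the Riemann zeta function, with their pair correlations and all their other properties);
* constants `c D ≥ 0` for all constellations: `tupleCount q D x` counts the primes `p ≤ x` such that `p + d` is a prime for all
  `d ∈ D`, for a finite set `D` of natural numbers with `0 ∈ D`, `|D| ≥ 2`; it is to be `c D ∫_2^x du / (log u) ^ |D|` with the error
  `O(x ^ (1 / 2 + ε))` for all `D` at the same time (for instance with the constants of Hardy and Littlewood);
* a threshold: a function `h` with `h x / log x → ∞` and `h x = O(√x log x)` which is self-neglecting (`h y ∼ h x` for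
  `|y - x| = O(h x)`; for instance `h x = x ^ θ`, `0 < θ ≤ 1 / 2`, `h x = √x log x`, or `h x = (log x) ^ c`, `c > 1`).

There are generalised primes with these zeros and these laws, with the analogues of the Riemann hypothesis and of the Lindelöf
hypothesis (`ZetaSystem`), for which `h` is the exact threshold of the prime number theorem in short intervals: for every
`lam > 0` the upper limit of `sup (π(x, H) log x / H)` over `lam h(x) ≤ H ≤ x` is `1 + 1 / lam`, and the lower limit of the infimum is
`max 0 (1 - 1 / lam)`. So the asymptotic formula holds, uniformly, for all `H` with `H / h(x) → ∞`, and it fails for `H ≍ h(x)`;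
for arbitrarily large `x` there are no generalised primes in `(x, x + h(x)]` at all. Moreover the number of the generalised primes
up to `x` is given by the explicit formula (`explicit γ x`, a function of the zeros only) with the error `O(√x)`, and with the error
`O(x ^ δ)` if `h(x) ≤ C x ^ δ`; and the number of the generalised primes in `(x, x + l log x]` has the Poisson distribution with mean
`l`, for all `l > 0`; and the prime number theorem holds in the mean in intervals of length `H` as soon as `H / log x → ∞`: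
`∫_X^{2 X} |π(x, H) - H / log X| dx ≤ ε X H / log X` for all `lam log X ≤ H ≤ X`, `lam` depending on `ε` only (under RH, Selberg's
theorem gives this for `H / (log x) ^ 2 → ∞`).

With `h x = (log x) ^ 2` the analogue of Q1 is true, with `h x = x ^ θ`, `0 < θ ≤ 1 / 2`, the exact exponent is `θ`. So the range
`H ≥ x ^ (1 / 2 + ε)` which RH gives cannot be extended by any argument that uses only the hypotheses in `ZetaSystem`, the zeros in
`Re s > 1 / 3`, the laws of (finitely or infinitely many) fixed constellations, even with square root errors, the Poisson law and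
the prime number theorem in almost all short intervals.

The systems are those of helper73 and helper49 (`MP_ff81b6_nt.GapsGivenAllConstellations`, `MP_b0c12c_nt.ZerosAndConstellations`,
`Pool.Agent.H73.KT`, `Pool.Agent.H73.KZ`, `Pool.Agent.H73.KP`, `Pool.Agent.H49.BZ`): a density of the generalised primes which has
the prescribed zeros; slowly growing blocks with random patterns at random positions, chosen by the method of conditional
expectations, the blocks without a pattern being rotated copies of a Poisson configuration; sparse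
holes whose points are moved to the right end. New here: the counting function in all short intervals (`Pool.Agent.H34.BK`). It
replaces `MP_31d0eb_nt.ThresholdsAndTuples` and `MP_31d0eb_nt.BeurlingThresholds`, without the zeros and without the laws of the
constellations.
-/

set_option autoImplicit false

open Filter Topology Set MeasureTheory Complex

namespace Pool.Agent.Results.MP_31d0eb_nt.ThresholdsGivenZeros

open Pool.Agent.H49.BP (gint)

/-- The number of the generalised primes up to `x`. -/
noncomputable def primeCount (q : ℕ → ℝ) (x : ℝ) : ℕ := {j : ℕ | q j ≤ x}.ncard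

/-- The number of the generalised integers up to `x`, with multiplicity. -/
noncomputable def intCount (q : ℕ → ℝ) (x : ℝ) : ℕ := {n : ℕ | 1 ≤ n ∧ gint q n ≤ x}.ncard

/-- The number of the generalised primes in `(x, x + H]`. -/
noncomputable def primesIn (q : ℕ → ℝ) (x H : ℝ) : ℕ := {j : ℕ | x < q j ∧ q j ≤ x + H}.ncard

/-- The density `π(x, H) log x / H` of the generalised primes in `(x, x + H]`, relative to the expected one. -/
noncomputable def dens (q : ℕ → ℝ) (x H : ℝ) : ℝ := primesIn q x H * Real.log x / H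

/-- The number of the generalised primes `p ≤ x` such that `p + d` is a generalised prime for every `d ∈ D`. -/
noncomputable def tupleCount (q : ℕ → ℝ) (D : Finset ℕ) (x : ℝ) : ℕ :=
  {n : ℕ | q n ≤ x ∧ ∀ d ∈ D, ∃ k, q k = q n + d}.ncard

/-- The generalised primes `q` have the zeta function `Z s / (s - 1)` and satisfy the analogues of the Riemann hypothesis and of
the Lindelöf hypothesis: they increase strictly from `q 0 > 1`; their number up to `x` is `∫_2^x du / log u + O(x ^ (1 / 2 + ε))`
and the number of the generalised integers up to `x` is `ρ x + O(x ^ (1 / 2 + ε))` for every `ε > 0`, with a `ρ > 0`; the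
function `Z` is holomorphic in `Re s > 1 / 3` and `∑ (gint q n) ^ (-s) = Z s / (s - 1)` for `Re s > 1`; in `Re s > 1 / 2` one has
`Z s = s * exp (G s)` with a holomorphic function `G` that is at most `C √(log (|Im s| + 3))` for `Re s ≥ σ`, for every `σ > 1 / 2`. -/
def ZetaSystem (q : ℕ → ℝ) (Z : ℂ → ℂ) : Prop :=
  StrictMono q ∧ 1 < q 0 ∧
    (∀ ε : ℝ, 0 < ε → ∃ C : ℝ, ∀ x : ℝ, 2 ≤ x →
      |(primeCount q x : ℝ) - ∫ u in (2 : ℝ)..x, (Real.log u)⁻¹| ≤ C * x ^ (1 / 2 + ε)) ∧
    (∃ ρ : ℝ, 0 < ρ ∧ ∀ ε : ℝ, 0 < ε → ∃ C : ℝ, ∀ x : ℝ, 1 ≤ x →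
      |(intCount q x : ℝ) - ρ * x| ≤ C * x ^ (1 / 2 + ε)) ∧
    (∀ s : ℂ, 1 / 3 < s.re → AnalyticAt ℂ Z s) ∧
    (∀ s : ℂ, 1 < s.re → ∑' n : ℕ, ((gint q (n + 1) : ℝ) : ℂ) ^ (-s) = Z s / (s - 1)) ∧
    ∃ G : ℂ → ℂ, DifferentiableOn ℂ G {s | 1 / 2 < s.re} ∧
      (∀ s : ℂ, 1 / 2 < s.re → Z s = s * Complex.exp (G s)) ∧
      ∀ σ : ℝ, 1 / 2 < σ → ∃ C : ℝ, ∀ s : ℂ, σ ≤ s.re → ‖G s‖ ≤ C * √(Real.log (|s.im| + 3))

/-- Every window `[T, T + 1]`, `T ≥ 0`, contains at most `C (T + 1) ^ ε` terms of the sequence, for every `ε > 0`, with a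
constant `C` which depends on `ε`. -/
def Windows (γ : ℕ → ℝ) : Prop :=
  ∀ ε : ℝ, 0 < ε → ∃ C : ℝ, ∀ T : ℝ, 0 ≤ T → ∀ S : Finset ℕ,
    (∀ k ∈ S, T ≤ γ k ∧ γ k ≤ T + 1) → (S.card : ℝ) ≤ C * (T + 1) ^ ε

/-- The zeros of `Z` in the half-plane `Re s > 1 / 3` are the points `1 / 2 ± i γ k`, and the order of such a zero is the number
of the `k` with this ordinate. -/
def HasZeros (Z : ℂ → ℂ) (γ : ℕ → ℝ) : Prop :=
  ∀ s : ℂ, 1 / 3 < s.re → analyticOrderAt Z s = {k | s = 1 / 2 + γ k * I ∨ s = 1 / 2 - γ k * I}.encard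

/-- The point from which on the zero of height `γ k` is felt: `exp (π N / (γ k))` with the least natural number `N` such that
it is at least `(8 k + 9) ^ 2 * (1 + γ k)`. -/
noncomputable def start (γ : ℕ → ℝ) (k : ℕ) : ℝ :=
  Real.exp (Real.pi * ⌈γ k * (2 * Real.log (8 * k + 9) + Real.log (1 + γ k)) / Real.pi⌉₊ / γ k)

/-- The right side of the explicit formula: the integral from `1` to `x` of
`(1 - 1 / u - (u ^ (-1 / 2) - 1 / u) / 2 - ∑ 2 cos (γ k log u) / √u) / log u`, the sum over the `k` with `start γ k ≤ u`. -/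
noncomputable def explicit (γ : ℕ → ℝ) (x : ℝ) : ℝ :=
  ∫ u in (1 : ℝ)..x, (((1 - u⁻¹) - 1 / 2 * ((√u)⁻¹ - u⁻¹)) / Real.log u -
    ∑' k, if start γ k ≤ u then 2 * Real.cos (γ k * Real.log u) / (√u * Real.log u) else 0)

/-- The number of the `D`-tuples up to `x` is `c D ∫_2^x du / (log u) ^ |D| + O(x ^ (1 / 2 + ε))` for all patterns `D` and all
`ε > 0`. -/
def Tuples (q : ℕ → ℝ) (c : Finset ℕ → ℝ) : Prop :=
  ∀ D : Finset ℕ, 0 ∈ D → 2 ≤ D.card → ∀ ε : ℝ, 0 < ε → ∃ C : ℝ, ∀ x : ℝ, 2 ≤ x →
    |(tupleCount q D x : ℝ) - c D * ∫ u in (2 : ℝ)..x, 1 / (Real.log u) ^ D.card| ≤ C * x ^ (1 / 2 + ε)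

/-- `h` is self-neglecting (slowly varying in the sense of Beurling): `h y / h x → 1` uniformly for `|y - x| ≤ C h x`, as
`x → ∞`, for every `C`. -/
def SelfNeglecting (h : ℝ → ℝ) : Prop :=
  ∀ C ε : ℝ, 0 < ε → ∀ᶠ x in atTop, ∀ y : ℝ, |y - x| ≤ C * h x → |h y - h x| ≤ ε * h x

/-- The functions which are admitted as thresholds. -/
def Admissible (h : ℝ → ℝ) : Prop :=
  SelfNeglecting h ∧ Tendsto (fun x => h x / Real.log x) atTop atTop ∧
    ∃ A : ℝ, ∀ᶠ x in atTop, h x ≤ A * √x * Real.log x

/-- `h` is the exact threshold of the prime number theorem in short intervals: over `lam h(x) ≤ H ≤ x` the upper limit of the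
supremum of the relative density is `1 + 1 / lam`, the lower limit of the infimum is `max 0 (1 - 1 / lam)`; and the intervals
`(x, x + h(x)]` are empty for arbitrarily large `x`. -/
def Threshold (q : ℕ → ℝ) (h : ℝ → ℝ) : Prop :=
  (∀ lam : ℝ, 0 < lam →
    limsup (fun x : ℝ => ⨆ H ∈ Icc (lam * h x) x, ((dens q x H : ℝ) : EReal)) atTop = ((1 + 1 / lam : ℝ) : EReal) ∧
      liminf (fun x : ℝ => ⨅ H ∈ Icc (lam * h x) x, ((dens q x H : ℝ) : EReal)) atTop =
        ((max 0 (1 - 1 / lam) : ℝ) : EReal)) ∧
    ∃ᶠ x : ℝ in atTop, primesIn q x (h x) = 0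

/-- The explicit formula: the number of the generalised primes up to `x` is `explicit γ x + O(√x)`, and it is
`explicit γ x + O(x ^ δ)` if `h x ≤ C x ^ δ` for all `x ≥ 1`, with some `C`. -/
def ExplicitFormula (q : ℕ → ℝ) (γ : ℕ → ℝ) (h : ℝ → ℝ) : Prop :=
  (∃ C : ℝ, ∀ x : ℝ, 1 ≤ x → |(primeCount q x : ℝ) - explicit γ x| ≤ C * √x) ∧
    ∀ δ : ℝ, 0 < δ → (∃ C : ℝ, ∀ x : ℝ, 1 ≤ x → h x ≤ C * x ^ δ) →
      ∃ C : ℝ, ∀ x : ℝ, 1 ≤ x → |(primeCount q x : ℝ) - explicit γ x| ≤ C * x ^ δ

/-- The number of the generalised primes in `(x, x + l log x]` has the Poisson distribution with mean `l`, for all `l > 0`. -/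
def PoissonLaw (q : ℕ → ℝ) : Prop :=
  ∀ l : ℝ, 0 < l → ∀ k : ℕ,
    Tendsto (fun X : ℝ => volume.real {x : ℝ | 2 ≤ x ∧ x ≤ X ∧ primesIn q x (l * Real.log x) = k} / X) atTop
      (𝓝 (Real.exp (-l) * l ^ k / (k.factorial : ℝ)))

/-- The prime number theorem in the mean in all short intervals `(x, x + H]` with `H / log x` large. -/
def MeanPNT (q : ℕ → ℝ) : Prop :=
  ∀ ε : ℝ, 0 < ε → ∃ lam : ℝ, 0 < lam ∧ ∀ᶠ X : ℝ in atTop, ∀ H : ℝ, lam * Real.log X ≤ H → H ≤ X →
    ∫ x in X..(2 * X), |(primesIn q x H : ℝ) - H / Real.log X| ≤ ε * X * (H / Real.log X)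

/-- the laws -/
theorem laws_of {c : Finset ℕ → ℝ} (hc : ∀ D, 0 ≤ c D)
    (hc0 : ∀ D D' : Finset ℕ, 0 ∈ D → 2 ≤ D.card → 0 ∈ D' → (∃ t, ∀ d ∈ D, t + d ∈ D') → c D = 0 → c D' = 0) :
    ∃ n : Finset ℕ → ℝ → ℝ, Pool.Agent.H73.KT.Laws n ∧ ∀ q : ℕ → ℝ,
      (∀ D : Finset ℕ, 0 ∈ D → 2 ≤ D.card → ∀ ε : ℝ, 0 < ε → ∃ C : ℝ, ∀ x : ℝ, 2 ≤ x →
        |(tupleCount q D x : ℝ) - ∫ u in (2 : ℝ)..x, n D u / Real.log u| ≤ C * x ^ (1 / 2 + ε)) → Tuples q c := by
  refine ⟨_, Pool.Agent.H73.KT.nb_laws hc
      (fun D D' hD hD2 hD' hm => hc0 D D' hD hD2 hD' (by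
        obtain ⟨t, _, h⟩ := Pool.Agent.H73.KT.mult_ne hm
        exact ⟨t, h⟩)) (Bad := fun _ => False) (fun _ _ _ h => h)
      (X := ∅) MeasurableSet.empty, fun q hlaw D hD hD2 ε hε => ?_⟩
  obtain ⟨C, hC⟩ := hlaw D hD hD2 ε hε
  refine ⟨C, fun x hx => ?_⟩
  rw [← Pool.Agent.H73.KT.nb_int (Bad := fun _ => False) (X := ∅) hD2 (fun h => h) hx]
  exact hC x hx

/-- **Prescribed thresholds of the prime number theorem in short intervals, under the analogues of RH and Lindelöf, with prescribed
zeros of the zeta function and prescribed laws of all constellations.** Let `c D ≥ 0` be constants for the patterns `D`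
(`c D' = 0` if `D'` contains a translate of a `D` with `c D = 0`), for instance the constants of Hardy and Littlewood; let
`0 < γ 0 ≤ γ 1 ≤ ...` be a sequence with at most `O((T + 1) ^ ε)` terms in every window `[T, T + 1]`, for instance the ordinates of the
zeros of the Riemann zeta function, if the Riemann hypothesis holds; let `h` be a self-neglecting function with
`h x / log x → ∞` and `h x = O(√x log x)`. There are generalised primes with the analogues of the Riemann hypothesis and of the
Lindelöf hypothesis, whose zeta function has exactly the zeros `1 / 2 ± i γ k` in `Re s > 1 / 3`, with the given laws of all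
constellations, for which `h` is the exact threshold of the prime number theorem in short intervals, with the explicit
formula, with the Poisson law in the intervals of length `l log x`, and with the prime number theorem in the mean in the intervals
of length `H` if `H / log x` is large. -/
theorem result (c : Finset ℕ → ℝ) (hc : ∀ D, 0 ≤ c D)
    (hc0 : ∀ D D' : Finset ℕ, 0 ∈ D → 2 ≤ D.card → 0 ∈ D' → (∃ t, ∀ d ∈ D, t + d ∈ D') → c D = 0 → c D' = 0)
    (γ : ℕ → ℝ) (hpos : ∀ k, 0 < γ k) (hmono : Monotone γ) (hwin : Windows γ) (h : ℝ → ℝ) (hh : Admissible h) :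
    ∃ (q : ℕ → ℝ) (Z : ℂ → ℂ), ZetaSystem q Z ∧ HasZeros Z γ ∧ Tuples q c ∧ Threshold q h ∧ ExplicitFormula q γ h ∧
      PoissonLaw q ∧ MeanPNT q := by
  obtain ⟨hsn, hlim, hup⟩ := hh
  obtain ⟨n, hn, hnq⟩ := laws_of hc hc0
  obtain ⟨q, Z, h1, h2, h3, h4, h5, ⟨al, be, A, S⟩, h6, h7⟩ := Pool.Agent.H34.BK.P.sysP hpos hmono hwin hn hsn hlim hup
  refine ⟨q, Z, h1, h2, hnq q h3, ⟨fun lam hlam => ⟨S.limsup_dens hlam, S.liminf_dens hlam⟩, S.below (f := h) ?_⟩, ⟨h4, h5⟩, h6, h7⟩
  filter_upwards [S.htop.eventually (eventually_ge_atTop 0)] with x hx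
  exact ⟨hx, le_rfl⟩

end Pool.Agent.Results.MP_31d0eb_nt.ThresholdsGivenZeros
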