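import Pool.Agent.H86.P8

set_option autoImplicit false

namespace Pool.Agent.Results.MP_31d0eb_nt.TranslatesByFewPowers
open Finset

/-- Primes in short intervals after the translates of an arbitrary set or weight. For every base `b ≥ 2` and all `lam, δ > 0` there
are `k` and `N₀` such that for every `N ≥ N₀` there is a finite nonempty set `D` of positive integers up to `δ N`, each a sum of at
most `k` powers of `b`, such that for every `H` with `lam log N ≤ H ≤ N` and every real weight `w` on `(N, 2N]` the mean square over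
`d ∈ D` of the sum over `x` of `w x` times (the number of primes in `(x + d, x + d + H]` minus `H / log N`) is at most `δ` times its
trivial size `(H / log N)² N ∑ w²`. (By Chebyshev's inequality: for every set `A` of integers in `(N, 2N]`, for all but at most
`δ^(1/3) |D|` of the `d ∈ D`, the number of pairs of an `x ∈ A` and a prime in `(x + d, x + d + H]` is `|A| H / log N` up to an error
`δ^(1/3) N H / log N`.) -/
theorem result (b : ℕ) (hb : 2 ≤ b) (lam δ : ℝ) (hlam : 0 < lam) (hδ : 0 < δ) :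
    ∃ k N₀ : ℕ, ∀ N : ℕ, N₀ ≤ N → ∃ D : Finset ℕ, D.Nonempty ∧
      (∀ d ∈ D, 1 ≤ d ∧ (d : ℝ) ≤ δ * N ∧ ∃ l : List ℕ, l.length ≤ k ∧ d = (l.map (fun e => b ^ e)).sum) ∧
      ∀ H : ℕ, lam * Real.log N ≤ H → H ≤ N → ∀ w : ℕ → ℝ,
        ∑ d ∈ D, (∑ x ∈ Ioc N (2 * N), w x *
            (((Nat.primeCounting (x + d + H) : ℝ) - Nat.primeCounting (x + d)) - H / Real.log N)) ^ 2 ≤
          δ * D.card * ((H / Real.log N) ^ 2 * N * ∑ x ∈ Ioc N (2 * N), w x ^ 2) := by
  classical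
  obtain ⟨δ', hδ'⟩ : ∃ δ' : ℝ, δ' = min 1 δ := ⟨_, rfl⟩
  have hδ'0 : 0 < δ' := by rw [hδ']; positivity
  have hδ'1 : δ' ≤ 1 := by rw [hδ']; exact min_le_left _ _
  have hδ'2 : δ' ≤ δ := by rw [hδ']; exact min_le_right _ _
  -- a base which is at least `3`
  obtain ⟨b', e, hb', hbe⟩ : ∃ b' e : ℕ, 3 ≤ b' ∧ b' = b ^ e := by
    by_cases h : 3 ≤ b
    · exact ⟨b, 1, h, by simp⟩
    · exact ⟨4, 2, by norm_num, by rw [show b = 2 by omega]; norm_num⟩
  obtain ⟨k, N₀, hmain⟩ := Pool.Agent.H86.PW.shift3 b' hb' lam δ' hlam hδ'0 hδ'1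
  refine ⟨k, N₀ + 2, fun N hN => ?_⟩
  obtain ⟨D, hD, hD1, hD2⟩ := hmain N (by omega)
  have hN0 : (2 : ℝ) ≤ N := by exact_mod_cast (by omega : 2 ≤ N)
  have hlog : 0 < Real.log N := Real.log_pos (by linarith)
  refine ⟨D, hD, fun d hd => ?_, fun H hH1 hH2 w => ?_⟩
  · obtain ⟨h1, ⟨l, hl1, hl2⟩, h3⟩ := hD1 d hd
    refine ⟨h1, h3.trans (mul_le_mul_of_nonneg_right hδ'2 (by linarith)), l.map (fun j => e * j), by rw [List.length_map]; exact hl1, ?_⟩
    rw [hl2, List.map_map]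
    congr 1
    apply List.map_congr_left
    intro j _
    simp only [Function.comp]
    rw [hbe, ← pow_mul]
  · have h1 := hD2 H hH1 hH2 w
    have h2 : ∀ d ∈ D, (∑ x ∈ Ioc N (2 * N), w x *
          (((Nat.primeCounting (x + d + H) : ℝ) - Nat.primeCounting (x + d)) - H / Real.log N)) ^ 2 =
        (H / Real.log N) ^ 2 * (∑ x ∈ Ioc N (2 * N), w x * (Pool.Agent.H86.PW.cH N H (x + d) - 1)) ^ 2 := by
      intro d _
      have hH0 : (0 : ℝ) < H := lt_of_lt_of_le (by positivity) hH1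
      rw [← mul_pow, mul_sum]
      congr 1
      apply sum_congr rfl
      intro x _
      unfold Pool.Agent.H86.PW.cH
      field_simp
    rw [sum_congr rfl h2, ← mul_sum]
    have h3 : 0 ≤ (H / Real.log N) ^ 2 * N * ∑ x ∈ Ioc N (2 * N), w x ^ 2 :=
      mul_nonneg (by positivity) (sum_nonneg fun _ _ => sq_nonneg _)
    have h4 : 0 ≤ (D.card : ℝ) := Nat.cast_nonneg _
    calc _ ≤ (H / Real.log N) ^ 2 * (δ' * D.card * (N * ∑ x ∈ Ioc N (2 * N), w x ^ 2)) := mul_le_mul_of_nonneg_left h1 (sq_nonneg _)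
      _ = δ' * D.card * ((H / Real.log N) ^ 2 * N * ∑ x ∈ Ioc N (2 * N), w x ^ 2) := by ring
      _ ≤ _ := mul_le_mul_of_nonneg_right (mul_le_mul_of_nonneg_right hδ'2 h4) h3

end Pool.Agent.Results.MP_31d0eb_nt.TranslatesByFewPowers
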